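import Pool.Agent.H50.SM.Evl
import Pool.Agent.H64.XS.Stm

/-! Project XS (helper64), module EVLJ (helper41): generalised eigenvectors; adapted from
`H50/SM/Evl.lean` (helper40). -/

set_option autoImplicit false
set_option linter.unusedSectionVars false
set_option linter.unusedVariables false

namespace Pool.Agent.H41.XS

open MeasureTheory Set Metric Filter Topology
open scoped InnerProductSpace ENNReal NNReal ComplexConjugate
open Pool.Agent.Y283.NK (ct IsMul Repr ea)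
open Pool.Agent.Q130.TR Pool.Agent.Q86.TR
open Pool.Agent.H50.SM.EVL
open ContinuousLinearMap (adjoint)

theorem evlj (h1 : S_L2B) (h2 : S_HSB) : Pool.Agent.H64.XS.S_EVLJ := by
  intro S _ μ _ φ N K hN u v hK x
  have hφ := hN.meas
  filter_upwards [ae_seq hφ hK.1, ae_seq hφ hK.2.1, ae_vec hφ x, ae_vec hφ (adjoint N x),
    ae_vec hφ (adjoint K x), (h2.1 S μ φ hφ u v hK.1 hK.2.1).2.1,
    (h2.2.1 S μ φ hφ u hK.1 x).1] with z g1 g2 g3 g4 g5 g6 g7
  intro c hc hF
  have hd : Sq fun j => ⟪x, u j⟫_ℂ := by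
    refine Summable.of_nonneg_of_le (fun _ => sq_nonneg _) (fun i => ?_)
      (hK.1.mul_left (‖x‖ ^ 2))
    rw [← mul_pow]
    exact pow_le_pow_left₀ (norm_nonneg _) (norm_inner_le_norm _ _) 2
  have e1 : ∑' j, ct φ (adjoint (N + K) x) (u j) z * c j =
      ∑' j, ((z * (ct φ x (u j) z * c j) - ⟪x, u j⟫_ℂ * c j) +
        (∑' i, ⟪x, u i⟫_ℂ * Fm φ u v z i j) * c j) := by
    refine tsum_congr fun j => ?_
    rw [ct_adj hN hK g1 g2 g3 g4 g5 j]
    ring
  have s1 : Summable fun j => z * (ct φ x (u j) z * c j) :=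
    (Pool.Agent.Q16.TR.L2B.summ g7.1 hc).mul_left z
  have s2 : Summable fun j => ⟪x, u j⟫_ℂ * c j := Pool.Agent.Q16.TR.L2B.summ hd hc
  have s3 : Summable fun j => (∑' i, ⟪x, u i⟫_ℂ * Fm φ u v z i j) * c j :=
    Pool.Agent.Q16.TR.L2B.summ (Pool.Agent.Q16.TR.L2B.sq_left hd g6) hc
  rw [e1, (s1.sub s2).tsum_add s3, s1.tsum_sub s2, Pool.Agent.Q16.TR.L2B.exch hd g6 hc,
    tsum_mul_left]
  have e2 : ∑' l, ⟪x, u l⟫_ℂ * act (Fm φ u v z) c l = ∑' j, ⟪x, u j⟫_ℂ * c j := by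
    refine tsum_congr fun j => ?_
    rcases hF j with h | h
    · rw [h, zero_mul, zero_mul]
    · rw [← h]
  rw [e2]
  ring

end Pool.Agent.H41.XS
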