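import Pool.Agent.H50.SM.Wgt
import Pool.Agent.H64.XS.Stm

/-! Project XS (helper64), module WGTJ (helper41): the weight; adapted from `H50/SM/Wgt.lean`
(helper75). -/

set_option autoImplicit false

namespace Pool.Agent.H41.XS

open MeasureTheory Set Metric Filter Topology
open scoped InnerProductSpace ENNReal NNReal ComplexConjugate
open Pool.Agent.Y283.NK (ct IsMul Repr)
open Pool.Agent.Q130.TC Pool.Agent.Q130.TR
open Pool.Agent.H50.SM Pool.Agent.H50.SM.WGT
open ContinuousLinearMap (adjoint)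

theorem wgtj (h1 : Pool.Agent.H64.XS.S_EVLJ) (h2 : S_L2B) (h3 : S_HSB) :
    Pool.Agent.H64.XS.S_WGTJ := by
  intro S _ μ _ φ N K hN u v hK J x hJ
  have hφ : Measurable φ := hN.meas
  have hu : Summable (fun j => ‖u j‖ ^ 2) := hK.1
  obtain ⟨y, hy⟩ : ∃ y : ℕ → Lp ℂ 2 μ, ∀ k, y k = ((adjoint (N + K)) ^ k) x := ⟨_, fun _ => rfl⟩
  have hy0 : y 0 = x := by
    rw [hy, pow_zero]
    rfl
  have hysucc : ∀ k, y (k + 1) = adjoint (N + K) (y k) := by
    intro k
    rw [hy, hy, pow_succ']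
    rfl
  -- the good points
  have g1 : ∀ᵐ z : ℂ, ∀ k, Sq (fun j => ct φ (y k) (u j) z) := by
    rw [ae_all_iff]
    intro k
    filter_upwards [(h3.2.1 S μ φ hφ u hu (y k)).1] with z hz
    exact hz.1
  have g2 : ∀ᵐ z : ℂ, ∀ k j, II φ (y k) (u j) z := by
    rw [ae_all_iff]
    intro k
    rw [ae_all_iff]
    intro j
    exact ae_II hφ (y k) (u j)
  have g3 : ∀ᵐ z : ℂ, ∀ k, ∀ c : ℕ → ℂ, Sq c → (∀ i ∈ J, c i = act (Fm φ u v z) c i) →
      ∑' j, ct φ (y (k + 1)) (u j) z * c j = z * ∑' j, ct φ (y k) (u j) z * c j := by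
    rw [ae_all_iff]
    intro k
    filter_upwards [h1 S μ φ N K hN u v hK (y k)] with z hz c hc hF
    rw [hysucc]
    refine hz c hc fun i => ?_
    by_cases hi : i ∈ J
    · exact Or.inr (hF i hi)
    · left
      rw [hy]
      exact hJ k i hi
  obtain ⟨U, hU⟩ : ∃ U : (Σ n : ℕ, Fin n → ℕ) → ℂ → ℝ,
      ∀ i z, U i z = n2 (fun j => ct φ (wv y i) (u j) z) := ⟨_, fun _ _ => rfl⟩
  have hUm : ∀ i, Measurable (U i) := by
    intro i
    have h4 : U i = fun z => n2 (fun j => ct φ (wv y i) (u j) z) := funext (hU i)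
    rw [h4]
    exact (h3.2.1 S μ φ hφ u hu (wv y i)).2.1
  have hU0 : ∀ i z, 0 ≤ U i z := by
    intro i z
    rw [hU]
    exact Real.sqrt_nonneg _
  -- the values at the good points
  have hval : ∀ z, (∀ k j, II φ (y k) (u j) z) → ∀ i, U i z =
      n2 (fun j => ∑ k : Fin i.1, TopologicalSpace.denseSeq ℂ (i.2 k) * ct φ (y k) (u j) z) := by
    intro z k2 i
    rw [hU]
    congr 1
    funext j
    exact (II_sum Finset.univ (fun k : Fin i.1 => TopologicalSpace.denseSeq ℂ (i.2 k))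
      (fun k : Fin i.1 => y k) (u j) z fun k _ => k2 k j).2
  refine ⟨Wf U, Wf_meas hUm, fun z => ⟨Wf_nonneg hU0 z, Wf_le z⟩, ?_, ?_⟩
  · intro p
    filter_upwards [g1, g2] with z k1 k2
    have h4 := upp h2 (fun k j => ct φ (y k) (u j) z) k1 z (Wf U z) (Wf_nonneg hU0 z) (Wf_le z)
      (fun i => by
        have := Wf_mul hU0 i z
        rw [hval z k2 i] at this
        exact this) p
    have h5 : (fun j => ct φ (yv (N + K) x p) (u j) z) =
        fun j => ∑ k : Fin (p.natDegree + 1), p.coeff k * ct φ (y k) (u j) z := by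
      funext j
      have h6 : yv (N + K) x p = ∑ k : Fin (p.natDegree + 1), conj (p.coeff k) • y k := by
        rw [yv_eq]
        exact Finset.sum_congr rfl fun k _ => by rw [hy]
      rw [h6]
      exact (II_sum Finset.univ (fun k : Fin (p.natDegree + 1) => p.coeff k)
        (fun k : Fin (p.natDegree + 1) => y k) (u j) z fun k _ => k2 k j).2
    rw [h5]
    exact h4
  · filter_upwards [g1, g2, g3] with z k1 k2 k3 c hc hc1 hF
    have hk : ∀ k, ∑' j, ct φ (y k) (u j) z * c j = z ^ k * ∑' j, ct φ x (u j) z * c j := by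
      intro k
      induction k with
      | zero => rw [hy0, pow_zero, one_mul]
      | succ k ih => rw [k3 k c hc hF, ih, pow_succ]; ring
    refine Wf_ge z _ fun i => ?_
    rw [hval z k2 i]
    exact low h2 (fun k j => ct φ (y k) (u j) z) k1 z _ c hc hc1 hk i

end Pool.Agent.H41.XS
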